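import Pool.Agent.Y785.EN.MainC

set_option autoImplicit false

open Pool.Agent.Helper227 Pool.Agent.Helper227.EN

namespace Pool.Agent.Results.MP_9e051a_lc.ConeAvoidance

/-- For every completion `T` of Peano arithmetic and every countable family `F` of sets of natural
numbers there is a nonstandard model `A` of `T` with universe `ℕ` such that

* no enumeration of a family `S` with `Rep(T) ⊆ S ⊆ Rep(T) ∪ F` is computable in `A` (for
  `S = Rep(T)` this is the positive answer to Q1), and
* every member of `F` which is computable in `A` belongs to `Rep(T)`. -/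
theorem result (T : LA.Theory) (hcomplete : T.IsComplete) (hPA : PA ⊆ T)
    (F : Set (ℕ → Bool)) (hF : F.Countable) :
    ∃ A : LA.Structure ℕ,
      @FirstOrder.Language.Theory.Model LA ℕ A T ∧
      ¬ Nonempty (@FirstOrder.Language.Equiv LA ℕ ℕ A stdStr) ∧
      (∀ (S : Set (ℕ → Bool)) (X : ℕ → Bool), EN.Rep T ⊆ S → S ⊆ EN.Rep T ∪ F → IsEnum X S →
        ¬ TuringReducible (chi X) (chi (diag A))) ∧
      ∀ C ∈ F, TuringReducible (chi C) (chi (diag A)) → C ∈ EN.Rep T :=
  Pool.Agent.Y785.EN.mainC T hcomplete hPA F hF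

end Pool.Agent.Results.MP_9e051a_lc.ConeAvoidance
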